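import Pool.Agent.V7H55.FP.Defs

/-!
Equivariant choice.
-/

namespace Pool.Agent.V7H68.FP

open Pool.Agent.V7H55.FP

theorem t_CH : S_CH := by
  intro G S V _ _ _ U Q hQ hex
  classical
  -- representatives of the orbits of `U`
  set rep : S → S := fun s => (Quotient.mk (MulAction.orbitRel U S) s).out with hrep
  have h1 : ∀ s, ∃ u : U, u • rep s = s := by
    intro s
    have h2 : (MulAction.orbitRel U S).r (rep s) s :=
      Quotient.exact ((Quotient.mk (MulAction.orbitRel U S) s).out_eq)
    have h3 := (MulAction.orbitRel U S).symm h2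
    exact h3
  have h4 : ∀ u ∈ U, ∀ s, rep (u • s) = rep s := by
    intro u hu s
    have h5 : Quotient.mk (MulAction.orbitRel U S) (u • s) =
        Quotient.mk (MulAction.orbitRel U S) s := by
      apply Quotient.sound
      exact ⟨⟨u, hu⟩, rfl⟩
    simp only [hrep]
    rw [h5]
  choose c hc using h1
  choose v hv1 hv2 using hex
  have key : ∀ (s : S) (g : G), g ∈ U → g • rep s = s → g • v (rep s) = (c s : G) • v (rep s) := by
    intro s g hg hgs
    have h5 : ((c s : G)⁻¹ * g) • rep s = rep s := by
      rw [mul_smul, hgs]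
      have h6 : (c s : G) • rep s = s := hc s
      rw [inv_smul_eq_iff, h6]
    have h6 := hv1 (rep s) ((c s : G)⁻¹ * g) (U.mul_mem (U.inv_mem (c s).2) hg) h5
    rw [mul_smul, inv_smul_eq_iff] at h6
    exact h6
  refine ⟨fun s => (c s : G) • v (rep s), fun u hu s => ?_, fun s => ?_⟩
  · have h5 : (u * (c s : G)) • rep (u • s) = u • s := by
      rw [h4 u hu, mul_smul]
      have h6 : (c s : G) • rep s = s := hc s
      rw [h6]
    have h6 := key (u • s) (u * (c s : G)) (U.mul_mem hu (c s).2) h5
    show (c (u • s) : G) • v (rep (u • s)) = u • ((c s : G) • v (rep s))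
    rw [← h6, h4 u hu, mul_smul]
  · have h5 := hQ (c s : G) (c s).2 (rep s) (v (rep s)) (hv2 (rep s))
    have h6 : (c s : G) • rep s = s := hc s
    rwa [h6] at h5

end Pool.Agent.V7H68.FP
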