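import Pool.Agent.V7H55.FP.Defs

/-!
A lifting problem which is solvable over a quadratic extension differs from a symbol.
-/

namespace Pool.Agent.V7H68.FP

open Pool.Agent.V7H55.FP

set_option linter.unusedSectionVars false

section core

variable {G P Q : Type} [Group G] [Group P] [Group Q]

theorem zmod2_cases (a : ZMod 2) : a = 0 ∨ a = 1 := by
  revert a
  decide

theorem zadd {ζ : P} (h : ζ * ζ = 1) (a b : ZMod 2) :
    ζ ^ (a + b).val = ζ ^ a.val * ζ ^ b.val := by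
  have h11 : (1 + 1 : ZMod 2) = 0 := by decide
  have v0 : (0 : ZMod 2).val = 0 := by decide
  have v1 : (1 : ZMod 2).val = 1 := by decide
  rcases zmod2_cases a with rfl | rfl <;> rcases zmod2_cases b with rfl | rfl
  · simp
  · simp
  · simp
  · rw [h11, v0, v1, pow_zero, pow_one, h]

theorem zinj {ζ : P} (h1 : ζ ≠ 1) {a b : ZMod 2} (h : ζ ^ a.val = ζ ^ b.val) : a = b := by
  have v0 : (0 : ZMod 2).val = 0 := by decide
  have v1 : (1 : ZMod 2).val = 1 := by decide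
  rcases zmod2_cases a with rfl | rfl <;> rcases zmod2_cases b with rfl | rfl
  · rfl
  · rw [v0, v1, pow_zero, pow_one] at h
    exact absurd h.symm h1
  · rw [v0, v1, pow_zero, pow_one] at h
    exact absurd h h1
  · rfl

theorem zself (a : ZMod 2) : a + a = 0 := by
  rcases zmod2_cases a with rfl | rfl <;> decide

variable {π : P →* Q} {ζ : P}

theorem zcomm (hC : Cen π ζ) (a : ZMod 2) (x : P) : ζ ^ a.val * x = x * ζ ^ a.val := by
  have v0 : (0 : ZMod 2).val = 0 := by decide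
  have v1 : (1 : ZMod 2).val = 1 := by decide
  rcases zmod2_cases a with rfl | rfl
  · rw [v0, pow_zero, one_mul, mul_one]
  · rw [v1, pow_one, hC.2.2.2.1 x]

theorem zdiff (hC : Cen π ζ) {x y : P} (h : π x = π y) : ∃ a : ZMod 2, x = y * ζ ^ a.val := by
  have h1 : π (y⁻¹ * x) = 1 := by rw [map_mul, map_inv, h, inv_mul_cancel]
  rcases (hC.2.2.2.2 _).1 h1 with h2 | h2
  · exact ⟨0, by simp [inv_mul_eq_one.1 h2]⟩
  · refine ⟨1, ?_⟩
    have v1 : (1 : ZMod 2).val = 1 := by decide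
    rw [v1, pow_one, ← h2, mul_inv_cancel_left]

open Classical in
theorem core (hC : Cen π ζ) (ψ : G →* Q) {U U' : Subgroup G} {τ : G} (_hUU : U' ≤ U)
    (_hτ : τ ∈ U) (hτ' : τ ∉ U') (h2 : ∀ u ∈ U, u ∈ U' ∨ τ⁻¹ * u ∈ U')
    (hn : ∀ v ∈ U', τ⁻¹ * v * τ ∈ U') (hs : τ * τ ∈ U') {θ : G → P}
    (hθ1 : ∀ g ∈ U', π (θ g) = ψ g) (hθ2 : ∀ g ∈ U', ∀ h ∈ U', θ (g * h) = θ g * θ h) :
    ∃ (χ : G → ZMod 2) (θ' : G → P), (∀ g ∈ U, ∀ h ∈ U, χ (g * h) = χ g + χ h) ∧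
      (∀ g ∈ U, π (θ' g) = ψ g) ∧ (∀ g ∈ U, ∀ h ∈ U', θ' (g * h) = θ' g * θ' h) ∧
      (∀ g ∈ U, ∀ h ∈ U, h ∉ U' → θ' (g * h) = θ' g * θ' h * ζ ^ (χ g).val) ∧
      (∀ v ∈ U', θ v = 1 → θ (τ⁻¹ * v * τ) = 1 → χ v = 0) ∧ (∀ v ∈ U', θ' v = θ v) := by
  obtain ⟨tt, htt⟩ := hC.1 (ψ τ)
  have zc := zcomm hC
  have za := fun a b => zadd hC.2.2.1 a b
  have zi : ∀ {a b : ZMod 2}, ζ ^ a.val = ζ ^ b.val → a = b := fun h => zinj hC.2.1 h
  -- the difference of the two lifts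
  have hη0 : ∀ v : G, ∃ a : ZMod 2, v ∈ U' → tt * θ (τ⁻¹ * v * τ) * tt⁻¹ = θ v * ζ ^ a.val := by
    intro v
    by_cases hv : v ∈ U'
    · have h3 : π (tt * θ (τ⁻¹ * v * τ) * tt⁻¹) = π (θ v) := by
        rw [map_mul, map_mul, map_inv, hθ1 _ (hn v hv), hθ1 v hv, htt, map_mul, map_mul, map_inv]
        group
      obtain ⟨a, ha⟩ := zdiff hC h3
      exact ⟨a, fun _ => ha⟩
    · exact ⟨0, fun h => absurd h hv⟩
  choose η hη using hη0
  have hη' : ∀ v ∈ U', tt * θ (τ⁻¹ * v * τ) = θ v * ζ ^ (η v).val * tt := by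
    intro v hv
    rw [← hη v hv, inv_mul_cancel_right]
  have hη'' : ∀ v ∈ U', θ v * tt = tt * θ (τ⁻¹ * v * τ) * ζ ^ (η v).val := by
    intro v hv
    rw [hη' v hv, mul_assoc (θ v), zc, ← mul_assoc, mul_assoc (θ v * tt), ← za, zself]
    simp
  have hηm : ∀ v ∈ U', ∀ w ∈ U', η (v * w) = η v + η w := by
    intro v hv w hw
    apply zi
    have h3 := hη' (v * w) (U'.mul_mem hv hw)
    have h4 : τ⁻¹ * (v * w) * τ = (τ⁻¹ * v * τ) * (τ⁻¹ * w * τ) := by group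
    rw [h4, hθ2 _ (hn v hv) _ (hn w hw), ← mul_assoc, hη' v hv, mul_assoc, hη' w hw,
      hθ2 v hv w hw] at h3
    have h5 : θ v * θ w * (ζ ^ (η v).val * ζ ^ (η w).val) * tt =
        θ v * θ w * ζ ^ (η (v * w)).val * tt := by
      rw [← h3]
      have h6 := zc (η v) (θ w)
      calc θ v * θ w * (ζ ^ (η v).val * ζ ^ (η w).val) * tt
          = θ v * (θ w * ζ ^ (η v).val) * ζ ^ (η w).val * tt := by group
        _ = θ v * (ζ ^ (η v).val * θ w) * ζ ^ (η w).val * tt := by rw [h6]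
        _ = θ v * ζ ^ (η v).val * (θ w * ζ ^ (η w).val * tt) := by group
    rw [za]
    exact (mul_left_cancel (mul_right_cancel h5)).symm
  obtain ⟨ε, hε⟩ : ∃ ε : ZMod 2, tt * tt = θ (τ * τ) * ζ ^ ε.val := by
    refine zdiff hC ?_
    rw [map_mul, htt, hθ1 _ hs, map_mul]
  have hηs : η (τ * τ) = 0 := by
    apply zi
    have h3 := hη' (τ * τ) hs
    have h4 : τ⁻¹ * (τ * τ) * τ = τ * τ := by group
    rw [h4] at h3
    have h5 : θ (τ * τ) = tt * tt * ζ ^ ε.val := by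
      rw [hε, mul_assoc, ← za, zself]
      simp
    have h6 : tt * θ (τ * τ) = θ (τ * τ) * tt := by
      rw [h5, mul_assoc, mul_assoc, mul_assoc, zc]
    rw [h6, mul_assoc, zc, ← mul_assoc] at h3
    have h7 : θ (τ * τ) * tt * 1 = θ (τ * τ) * tt * ζ ^ (η (τ * τ)).val := by
      rw [mul_one]
      exact h3
    have h8 := mul_left_cancel h7
    have v0 : (0 : ZMod 2).val = 0 := by decide
    rw [v0, pow_zero]
    exact h8.symm
  have hηc : ∀ v ∈ U', η (τ⁻¹ * v * τ) = η v := by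
    intro v hv
    have h3 := hη' v hv
    have h4 := hη' (τ⁻¹ * v * τ) (hn v hv)
    have h5 : τ⁻¹ * (τ⁻¹ * v * τ) * τ = (τ * τ)⁻¹ * v * (τ * τ) := by group
    rw [h5] at h4
    have h6 : θ ((τ * τ)⁻¹ * v * (τ * τ)) = (θ (τ * τ))⁻¹ * θ v * θ (τ * τ) := by
      have e1 : θ ((τ * τ) * ((τ * τ)⁻¹ * v * (τ * τ))) = θ (v * (τ * τ)) := by
        congr 1
        group
      have e2 : (τ * τ)⁻¹ * v * (τ * τ) ∈ U' :=
        U'.mul_mem (U'.mul_mem (U'.inv_mem hs) hv) hs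
      rw [hθ2 _ hs _ e2, hθ2 _ hv _ hs] at e1
      rw [mul_assoc (θ (τ * τ))⁻¹, ← e1, inv_mul_cancel_left]
    -- conjugating twice
    have h7 : tt * tt * θ ((τ * τ)⁻¹ * v * (τ * τ)) = θ v * ζ ^ (η v + η (τ⁻¹ * v * τ)).val *
        (tt * tt) := by
      rw [mul_assoc, h4, za]
      have e1 := zc (η (τ⁻¹ * v * τ)) tt
      calc tt * (θ (τ⁻¹ * v * τ) * ζ ^ (η (τ⁻¹ * v * τ)).val * tt)
          = (tt * θ (τ⁻¹ * v * τ)) * (ζ ^ (η (τ⁻¹ * v * τ)).val * tt) := by group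
        _ = (θ v * ζ ^ (η v).val * tt) * (tt * ζ ^ (η (τ⁻¹ * v * τ)).val) := by rw [h3, e1]
        _ = θ v * ζ ^ (η v).val * tt * (ζ ^ (η (τ⁻¹ * v * τ)).val * tt) := by rw [e1]
        _ = θ v * ζ ^ (η v).val * (tt * ζ ^ (η (τ⁻¹ * v * τ)).val) * tt := by group
        _ = θ v * ζ ^ (η v).val * (ζ ^ (η (τ⁻¹ * v * τ)).val * tt) * tt := by rw [e1]
        _ = θ v * (ζ ^ (η v).val * ζ ^ (η (τ⁻¹ * v * τ)).val) * (tt * tt) := by group
    have h8 : tt * tt * θ ((τ * τ)⁻¹ * v * (τ * τ)) = θ v * (tt * tt) := by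
      rw [h6, hε]
      have e1 := zc ε
      calc θ (τ * τ) * ζ ^ ε.val * ((θ (τ * τ))⁻¹ * θ v * θ (τ * τ))
          = θ (τ * τ) * (ζ ^ ε.val * ((θ (τ * τ))⁻¹ * θ v * θ (τ * τ))) := by group
        _ = θ (τ * τ) * (((θ (τ * τ))⁻¹ * θ v * θ (τ * τ)) * ζ ^ ε.val) := by rw [e1]
        _ = θ v * (θ (τ * τ) * ζ ^ ε.val) := by group
    rw [h8] at h7
    have h9 : θ v * 1 = θ v * ζ ^ (η v + η (τ⁻¹ * v * τ)).val := by
      rw [mul_one]
      exact mul_right_cancel h7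
    have h10 := mul_left_cancel h9
    have h11 : (0 : ZMod 2) = η v + η (τ⁻¹ * v * τ) := by
      apply zi
      have v0 : (0 : ZMod 2).val = 0 := by decide
      rw [v0, pow_zero]
      exact h10
    have h12 := zself (η v)
    rw [h12.symm] at h11
    exact (add_left_cancel h11).symm
  -- the character and the function
  have hτU : ∀ v ∈ U', τ * v ∉ U' := fun v hv h => hτ' (by
    have := U'.mul_mem h (U'.inv_mem hv)
    rwa [mul_inv_cancel_right] at this)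
  set χ : G → ZMod 2 := fun g => if g ∈ U' then η g else η (τ⁻¹ * g) + ε with hχ
  set θ' : G → P := fun g => if g ∈ U' then θ g else tt * θ (τ⁻¹ * g) with hθ'
  have χ0 : ∀ v ∈ U', χ v = η v := fun v hv => if_pos hv
  have χ1 : ∀ v ∈ U', χ (τ * v) = η v + ε := by
    intro v hv
    have : χ (τ * v) = η (τ⁻¹ * (τ * v)) + ε := if_neg (hτU v hv)
    rw [this, inv_mul_cancel_left]
  have t0 : ∀ v ∈ U', θ' v = θ v := fun v hv => if_pos hv
  have t1 : ∀ v ∈ U', θ' (τ * v) = tt * θ v := by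
    intro v hv
    have : θ' (τ * v) = tt * θ (τ⁻¹ * (τ * v)) := if_neg (hτU v hv)
    rw [this, inv_mul_cancel_left]
  have hcs : ∀ g ∈ U, g ∈ U' ∨ ∃ v ∈ U', g = τ * v := by
    intro g hg
    rcases h2 g hg with h3 | h3
    · exact Or.inl h3
    · exact Or.inr ⟨_, h3, by rw [mul_inv_cancel_left]⟩
  have r1 : ∀ v w : G, v * (τ * w) = τ * ((τ⁻¹ * v * τ) * w) := fun v w => by group
  have r2 : ∀ v w : G, τ * v * (τ * w) = (τ * τ) * ((τ⁻¹ * v * τ) * w) := fun v w => by group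
  refine ⟨χ, θ', ?_, ?_, ?_, ?_, ?_, t0⟩
  · intro g hg h hh
    rcases hcs g hg with hg1 | ⟨v, hv, rfl⟩ <;> rcases hcs h hh with hh1 | ⟨w, hw, rfl⟩
    · rw [χ0 _ hg1, χ0 _ hh1, χ0 _ (U'.mul_mem hg1 hh1), hηm _ hg1 _ hh1]
    · rw [χ0 _ hg1, χ1 _ hw, r1, χ1 _ (U'.mul_mem (hn g hg1) hw), hηm _ (hn g hg1) _ hw,
        hηc _ hg1]
      ring
    · rw [χ0 _ hh1, χ1 _ hv, mul_assoc, χ1 _ (U'.mul_mem hv hh1), hηm _ hv _ hh1]
      ring
    · rw [χ1 _ hv, χ1 _ hw, r2, χ0 _ (U'.mul_mem hs (U'.mul_mem (hn v hv) hw)),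
        hηm _ hs _ (U'.mul_mem (hn v hv) hw), hηm _ (hn v hv) _ hw, hηc _ hv, hηs]
      have := zself ε
      linear_combination -this
  · intro g hg
    rcases hcs g hg with hg1 | ⟨v, hv, rfl⟩
    · rw [t0 _ hg1, hθ1 _ hg1]
    · rw [t1 _ hv, map_mul, htt, hθ1 _ hv, map_mul]
  · intro g hg h hh1
    rcases hcs g hg with hg1 | ⟨v, hv, rfl⟩
    · rw [t0 _ hg1, t0 _ hh1, t0 _ (U'.mul_mem hg1 hh1), hθ2 _ hg1 _ hh1]
    · rw [t1 _ hv, t0 _ hh1, mul_assoc, t1 _ (U'.mul_mem hv hh1), hθ2 _ hv _ hh1, mul_assoc]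
  · intro g hg h hh hh1
    rcases hcs h hh with hh2 | ⟨w, hw, rfl⟩
    · exact absurd hh2 hh1
    rcases hcs g hg with hg1 | ⟨v, hv, rfl⟩
    · rw [t0 _ hg1, t1 _ hw, χ0 _ hg1, r1, t1 _ (U'.mul_mem (hn g hg1) hw),
        hθ2 _ (hn g hg1) _ hw]
      have e1 := hη'' g hg1
      have e2 := zc (η g) (θ w)
      calc tt * (θ (τ⁻¹ * g * τ) * θ w)
          = tt * θ (τ⁻¹ * g * τ) * θ w * 1 := by group
        _ = tt * θ (τ⁻¹ * g * τ) * θ w * (ζ ^ (η g).val * ζ ^ (η g).val) := by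
            rw [← za, zself]; simp
        _ = tt * θ (τ⁻¹ * g * τ) * (θ w * ζ ^ (η g).val) * ζ ^ (η g).val := by group
        _ = tt * θ (τ⁻¹ * g * τ) * (ζ ^ (η g).val * θ w) * ζ ^ (η g).val := by rw [e2]
        _ = (tt * θ (τ⁻¹ * g * τ) * ζ ^ (η g).val) * θ w * ζ ^ (η g).val := by group
        _ = (θ g * tt) * θ w * ζ ^ (η g).val := by rw [e1]
        _ = θ g * (tt * θ w) * ζ ^ (η g).val := by group
    · rw [t1 _ hv, t1 _ hw, χ1 _ hv, r2, t0 _ (U'.mul_mem hs (U'.mul_mem (hn v hv) hw)),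
        hθ2 _ hs _ (U'.mul_mem (hn v hv) hw), hθ2 _ (hn v hv) _ hw, za]
      have e1 := hη'' v hv
      have e2 := zc (η v) (θ w)
      have e3 := zc ε
      have e4 : θ (τ * τ) = tt * tt * ζ ^ ε.val := by
        rw [hε, mul_assoc, ← za, zself]
        simp
      calc θ (τ * τ) * (θ (τ⁻¹ * v * τ) * θ w)
          = tt * tt * (ζ ^ ε.val * (θ (τ⁻¹ * v * τ) * θ w)) * 1 := by rw [e4]; group
        _ = tt * tt * ((θ (τ⁻¹ * v * τ) * θ w) * ζ ^ ε.val) *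
            (ζ ^ (η v).val * ζ ^ (η v).val) := by
            rw [e3, ← za, zself]; simp
        _ = tt * (tt * θ (τ⁻¹ * v * τ)) * (θ w * (ζ ^ ε.val * ζ ^ (η v).val)) *
            ζ ^ (η v).val := by group
        _ = tt * (tt * θ (τ⁻¹ * v * τ)) * (θ w * (ζ ^ (η v).val * ζ ^ ε.val)) *
            ζ ^ (η v).val := by rw [← za ε, add_comm ε, za]
        _ = tt * (tt * θ (τ⁻¹ * v * τ)) * ((θ w * ζ ^ (η v).val) * ζ ^ ε.val) *
            ζ ^ (η v).val := by group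
        _ = tt * (tt * θ (τ⁻¹ * v * τ)) * ((ζ ^ (η v).val * θ w) * ζ ^ ε.val) *
            ζ ^ (η v).val := by rw [e2]
        _ = tt * (tt * θ (τ⁻¹ * v * τ) * ζ ^ (η v).val) * θ w *
            (ζ ^ ε.val * ζ ^ (η v).val) := by group
        _ = tt * (θ v * tt) * θ w * (ζ ^ (η v).val * ζ ^ ε.val) := by
            rw [e1, ← za ε, add_comm ε, za]
        _ = tt * θ v * (tt * θ w) * (ζ ^ (η v).val * ζ ^ ε.val) := by group
  · intro v hv h3 h4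
    rw [χ0 v hv]
    apply zi
    have h5 := hη v hv
    rw [h3, h4, mul_one, mul_inv_cancel, one_mul] at h5
    have v0 : (0 : ZMod 2).val = 0 := by decide
    rw [v0, pow_zero]
    exact h5.symm

end core

theorem t_G1 (hKU : S_KU) : S_G1 := by
  intro F K _ _ _ _ h2K U hUc P Q _ _ π ζ hC ψ hψ α hα hαU U' hU' θ hLC hθ1 hθ2
  have hUU : U' ≤ U := fun g hg => ((hU' g).1 hg).1
  by_cases hall : ∀ u ∈ U, u • α = α
  · refine ⟨1, one_ne_zero, fun u _ => by simp, θ, ?_, ?_, ?_⟩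
    · have e : U' = U := le_antisymm hUU fun g hg => (hU' g).2 ⟨hg, hall g hg⟩
      rwa [e] at hLC
    · exact fun g hg => hθ1 g ((hU' g).2 ⟨hg, hall g hg⟩)
    · intro g hg h hh
      have e : sg α h = 0 := if_pos (hall h hh)
      rw [hθ2 g ((hU' g).2 ⟨hg, hall g hg⟩) h ((hU' h).2 ⟨hh, hall h hh⟩), e, mul_zero]
      simp
  push Not at hall
  obtain ⟨τ, hτ, hτα⟩ := hall
  have hpm : ∀ u ∈ U, u • α = α ∨ u • α = -α := by
    intro u hu
    have h1 := hαU u hu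
    rw [smul_pow'] at h1
    exact sq_eq_sq_iff_eq_or_eq_neg.1 h1
  have hτn : τ • α = -α := (hpm τ hτ).resolve_left hτα
  have hne : -α ≠ α := by
    intro h
    have h3 : (2 : K) * α = 0 := by linear_combination -h
    exact (mul_ne_zero h2K hα) h3
  have hτ' : τ ∉ U' := fun h => hτα ((hU' τ).1 h).2
  have hτi : τ⁻¹ • α = -α := by
    rw [inv_smul_eq_iff, smul_neg, hτn, neg_neg]
  have h2 : ∀ u ∈ U, u ∈ U' ∨ τ⁻¹ * u ∈ U' := by
    intro u hu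
    rcases hpm u hu with h3 | h3
    · exact Or.inl ((hU' u).2 ⟨hu, h3⟩)
    · refine Or.inr ((hU' _).2 ⟨U.mul_mem (U.inv_mem hτ) hu, ?_⟩)
      rw [mul_smul, h3, smul_neg, hτi, neg_neg]
  have hn : ∀ v ∈ U', τ⁻¹ * v * τ ∈ U' := by
    intro v hv
    obtain ⟨h3, h4⟩ := (hU' v).1 hv
    refine (hU' _).2 ⟨U.mul_mem (U.mul_mem (U.inv_mem hτ) h3) hτ, ?_⟩
    rw [mul_smul, mul_smul, hτn, smul_neg, h4, smul_neg, hτi, neg_neg]
  have hs : τ * τ ∈ U' := by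
    refine (hU' _).2 ⟨U.mul_mem hτ hτ, ?_⟩
    rw [mul_smul, hτn, smul_neg, hτn, neg_neg]
  obtain ⟨χ, θ', c1, c2, c3, c4, c5, c6⟩ := core hC ψ hUU hτ hτ' h2 hn hs hθ1 hθ2
  -- locally constant
  obtain ⟨W0, hW0, hθW⟩ := hLC
  have hθ1' : θ 1 = 1 := by
    have h3 := hθ2 1 U'.one_mem 1 U'.one_mem
    rw [mul_one] at h3
    exact (left_eq_mul.1 h3)
  have hθw : ∀ w ∈ U', w ∈ W0 → θ w = 1 := by
    intro w hw hw0
    have h3 := hθW 1 U'.one_mem w hw hw0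
    rwa [one_mul, hθ1'] at h3
  set W : Subgroup (K ≃ₐ[F] K) := W0 ⊓ (W0.comap (MulAut.conj τ⁻¹).toMonoidHom ⊓
    MulAction.stabilizer (K ≃ₐ[F] K) α) with hW
  have hWo : IsOpen (W : Set (K ≃ₐ[F] K)) := by
    rw [hW, Subgroup.coe_inf, Subgroup.coe_inf]
    refine hW0.inter (IsOpen.inter ?_ (stabilizer_isOpen_of_isIntegral α))
    refine hW0.preimage ?_
    show Continuous fun g : K ≃ₐ[F] K => τ⁻¹ * g * (τ⁻¹)⁻¹
    fun_prop
  have hWU : ∀ w ∈ U, w ∈ W → w ∈ U' ∧ θ w = 1 ∧ χ w = 0 := by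
    intro w hw hwW
    rw [hW, Subgroup.mem_inf, Subgroup.mem_inf] at hwW
    obtain ⟨h3, h4, h5⟩ := hwW
    have h6 : w ∈ U' := (hU' w).2 ⟨hw, h5⟩
    have h7 : τ⁻¹ * w * τ ∈ W0 := by
      have h8 : τ⁻¹ * w * (τ⁻¹)⁻¹ ∈ W0 := h4
      rwa [inv_inv] at h8
    have h8 := hθw w h6 h3
    exact ⟨h6, h8, c5 w h6 h8 (hθw _ (hn w h6) h7)⟩
  have hχLC : LC U χ := ⟨W, hWo, fun h hh w hw hwW => by
    rw [c1 h hh w hw, (hWU w hw hwW).2.2, add_zero]⟩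
  obtain ⟨β, hβ, hβU, hβχ⟩ := hKU F K h2K U hUc χ hχLC c1
  refine ⟨β, hβ, hβU, θ', ⟨W, hWo, fun h hh w hw hwW => ?_⟩, c2, fun g hg h hh => ?_⟩
  · obtain ⟨h3, h4, h5⟩ := hWU w hw hwW
    rw [c3 h hh w h3, c6 w h3, h4, mul_one]
  · by_cases h3 : h ∈ U'
    · have e : sg α h = 0 := if_pos ((hU' h).1 h3).2
      rw [c3 g hg h h3, e, mul_zero]
      simp
    · have e : sg α h = 1 := if_neg fun h4 => h3 ((hU' h).2 ⟨hh, h4⟩)
      rw [c4 g hg h hh h3, e, mul_one, hβχ g hg]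

end Pool.Agent.V7H68.FP
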