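import Pool.Agent.V7H55.FP.Defs

/-!
The local-global principle for isotropy of diagonal forms.
-/

namespace Pool.Agent.V7H68.FP

open Pool.Agent.V7H55.FP

set_option linter.unusedSectionVars false

section fld

variable {k : Type} [Field k]

theorem univ_form {J : Type} [Fintype J] [DecidableEq J] (h2 : (2 : k) ≠ 0) (c y : J → k)
    (hc : ∀ j, c j ≠ 0) (hy : y ≠ 0) (h : ∑ j, c j * y j ^ 2 = 0) (lam : k) :
    ∃ y' : J → k, ∑ j, c j * y' j ^ 2 = lam := by
  obtain ⟨j, hj⟩ := Function.ne_iff.1 hy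
  rw [Pi.zero_apply] at hj
  have hcj := hc j
  set μ : k := (lam - c j) / (2 * c j * y j) with hμ
  refine ⟨fun i => μ * y i + if i = j then 1 else 0, ?_⟩
  have h3 : ∀ i, c i * (μ * y i + if i = j then 1 else 0) ^ 2 =
      μ ^ 2 * (c i * y i ^ 2) + if i = j then (2 * μ * c j * y j + c j) else 0 := by
    intro i
    by_cases hi : i = j
    · subst hi
      rw [if_pos rfl, if_pos rfl]
      ring
    · rw [if_neg hi, if_neg hi]
      ring
  rw [Finset.sum_congr rfl fun i _ => h3 i, Finset.sum_add_distrib, ← Finset.mul_sum, h,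
    mul_zero, zero_add, Finset.sum_ite_eq']
  rw [if_pos (Finset.mem_univ _), hμ]
  field_simp
  ring

theorem tern (h2 : (2 : k) ≠ 0) {a0 a1 a2 x0 x1 x2 : k} (h0 : a0 ≠ 0) (h1 : a1 ≠ 0)
    (h : a0 * x0 ^ 2 + a1 * x1 ^ 2 + a2 * x2 ^ 2 = 0) (hx : x0 ≠ 0 ∨ x1 ≠ 0 ∨ x2 ≠ 0) :
    ∃ r t : k, -a2 / a0 = r ^ 2 - (-a1 / a0) * t ^ 2 := by
  by_cases h3 : x2 = 0
  · rw [h3] at h hx
    have h4 : x1 ≠ 0 := by
      intro h5
      rw [h5] at h
      have h6 : a0 * x0 ^ 2 = 0 := by linear_combination h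
      have h7 : x0 = 0 := by
        rcases mul_eq_zero.1 h6 with h8 | h8
        · exact absurd h8 h0
        · exact pow_eq_zero_iff (two_ne_zero) |>.1 h8
      rcases hx with h8 | h8 | h8
      · exact h8 h7
      · exact h8 h5
      · exact h8 rfl
    have h5 : x0 ≠ 0 := by
      intro h5
      rw [h5] at h
      have h6 : a1 * x1 ^ 2 = 0 := by linear_combination h
      exact (mul_ne_zero h1 (pow_ne_zero 2 h4)) h6
    have h6 : -a1 / a0 = (x0 / x1) ^ 2 := by
      field_simp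
      linear_combination -h
    set y : k := -a2 / a0 with hy
    refine ⟨(1 + y) / 2, (y - 1) / (2 * (x0 / x1)), ?_⟩
    rw [h6]
    have h7 : x0 / x1 ≠ 0 := div_ne_zero h5 h4
    field_simp
    ring
  · refine ⟨x0 / x2, x1 / x2, ?_⟩
    field_simp
    linear_combination -h

theorem split {m : ℕ} (hm : 0 < m) (h2 : (2 : k) ≠ 0) {a0 a1 x0 x1 : k} {c z : Fin m → k}
    (h0 : a0 ≠ 0) (h1 : a1 ≠ 0) (hc : ∀ i, c i ≠ 0)
    (h : a0 * x0 ^ 2 + a1 * x1 ^ 2 + ∑ i, c i * z i ^ 2 = 0) (hx : x0 ≠ 0 ∨ x1 ≠ 0 ∨ z ≠ 0) :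
    ∃ (d p q : k) (z' : Fin m → k), d ≠ 0 ∧ a0 * p ^ 2 + a1 * q ^ 2 = d ∧
      ∑ i, c i * z' i ^ 2 = -d := by
  by_cases he : a0 * x0 ^ 2 + a1 * x1 ^ 2 = 0
  · have h3 : ∑ i, c i * z i ^ 2 = 0 := by rw [he, zero_add] at h; exact h
    by_cases h4 : x0 ≠ 0 ∨ x1 ≠ 0
    · have h5 : (![x0, x1] : Fin 2 → k) ≠ 0 := by
        intro h5
        have e0 := congrFun h5 0
        have e1 := congrFun h5 1
        simp at e0 e1
        rcases h4 with h4 | h4
        · exact h4 e0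
        · exact h4 e1
      obtain ⟨y', hy'⟩ := univ_form h2 (![a0, a1] : Fin 2 → k) ![x0, x1] (by
        intro j
        fin_cases j
        · exact h0
        · exact h1) h5 (by
        rw [Fin.sum_univ_two]
        exact he) (-(c ⟨0, hm⟩))
      rw [Fin.sum_univ_two] at hy'
      refine ⟨-(c ⟨0, hm⟩), y' 0, y' 1, Pi.single ⟨0, hm⟩ 1, neg_ne_zero.2 (hc _), hy', ?_⟩
      rw [Finset.sum_eq_single (⟨0, hm⟩ : Fin m)]
      · simp
      · intro j _ hj
        simp [Pi.single_eq_of_ne hj]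
      · intro h6
        exact absurd (Finset.mem_univ _) h6
    · push Not at h4
      have h5 : z ≠ 0 := by
        rcases hx with h6 | h6 | h6
        · exact absurd h4.1 h6
        · exact absurd h4.2 h6
        · exact h6
      obtain ⟨y', hy'⟩ := univ_form h2 c z hc h5 h3 (-a0)
      exact ⟨a0, 1, 0, y', h0, by ring, hy'⟩
  · exact ⟨_, x0, x1, z, he, rfl, by linear_combination h⟩

end fld

section act

variable {G K S : Type} [Group G] [Field K] [MulSemiringAction G K] [MulAction G S]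

/-- The field fixed by the stabiliser of `s`. -/
def Ls (K : Type) [Field K] [MulSemiringAction G K] (U : Subgroup G) (s : S) : Subfield K where
  carrier := {x | ∀ u ∈ U, u • s = s → u • x = x}
  mul_mem' := fun hx hy u hu hs => by rw [smul_mul', hx u hu hs, hy u hu hs]
  one_mem' := fun u _ _ => smul_one u
  add_mem' := fun hx hy u hu hs => by rw [smul_add, hx u hu hs, hy u hu hs]
  zero_mem' := fun u _ _ => smul_zero u
  neg_mem' := fun hx u hu hs => by rw [smul_neg, hx u hu hs]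
  inv_mem' := fun x hx u hu hs => by rw [smul_inv'', hx u hu hs]

theorem mem_Ls {U : Subgroup G} {s : S} {x : K} :
    x ∈ Ls K U s ↔ ∀ u ∈ U, u • s = s → u • x = x := Iff.rfl

theorem Fx_mem {U : Subgroup G} {x : K} (h : Fx U x) (s : S) : x ∈ Ls K U s :=
  fun u hu _ => h u hu

theorem Ev_mem {U : Subgroup G} {f : S → K} (h : Ev U f) (s : S) : f s ∈ Ls K U s := by
  intro u hu hs
  rw [← h u hu s, hs]

theorem Ls_smul {U : Subgroup G} {s : S} {x : K} (h : x ∈ Ls K U s) {u : G} (hu : u ∈ U) :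
    u • x ∈ Ls K U (u • s) := by
  intro w hw hs
  have h1 : (u⁻¹ * w * u) • s = s := by
    rw [mul_smul, mul_smul, hs, inv_smul_smul]
  have h2 := h (u⁻¹ * w * u) (U.mul_mem (U.mul_mem (U.inv_mem hu) hw) hu) h1
  rw [mul_smul, mul_smul, inv_smul_eq_iff] at h2
  exact h2

theorem Fx_neg {U : Subgroup G} {x : K} (h : Fx U x) : Fx U (-x) := fun u hu => by
  rw [smul_neg, h u hu]

theorem Fx_div {U : Subgroup G} {x y : K} (h : Fx U x) (h' : Fx U y) : Fx U (x / y) :=
  fun u hu => by rw [div_eq_mul_inv, smul_mul', smul_inv'', h u hu, h' u hu]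

theorem Fx_mul {U : Subgroup G} {x y : K} (h : Fx U x) (h' : Fx U y) : Fx U (x * y) :=
  fun u hu => by rw [smul_mul', h u hu, h' u hu]

/-- Isotropy at all points implies isotropy. -/
def PP (K S : Type) [Field K] [MulSemiringAction G K] [MulAction G S] (U : Subgroup G)
    (n : ℕ) : Prop :=
  ∀ a : Fin n → K, (∀ i, Fx U (a i) ∧ a i ≠ 0) →
    (∀ s : S, ∃ z : Fin n → K, z ≠ 0 ∧ (∀ i, z i ∈ Ls K U s) ∧ ∑ i, a i * z i ^ 2 = 0) →
    ∃ v : Fin n → K, v ≠ 0 ∧ (∀ i, Fx U (v i)) ∧ ∑ i, a i * v i ^ 2 = 0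

theorem PP_three (hCH : S_CH) {U : Subgroup G} (h2 : (2 : K) ≠ 0) (hA : Ax K S U) :
    PP K S U 3 := by
  intro a ha hz
  have ha0 := (ha 0).2
  set x : K := -(a 1) / a 0 with hx
  set y : K := -(a 2) / a 0 with hy
  have hxF : Fx U x := Fx_div (Fx_neg (ha 1).1) (ha 0).1
  have hyF : Fx U y := Fx_div (Fx_neg (ha 2).1) (ha 0).1
  have hx0 : x ≠ 0 := div_ne_zero (neg_ne_zero.2 (ha 1).2) ha0
  have hy0 : y ≠ 0 := div_ne_zero (neg_ne_zero.2 (ha 2).2) ha0
  obtain ⟨f, hf1, hf2⟩ := hCH G S (K × K) U (fun _ v => y = v.1 ^ 2 - x * v.2 ^ 2) (by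
    intro u hu s v hv
    have h3 := congrArg (fun z => u • z) hv
    simp only [smul_sub, smul_mul', smul_pow', hxF u hu, hyF u hu] at h3
    exact h3) (by
    intro s
    obtain ⟨z, hz0, hzL, hzs⟩ := hz s
    rw [Fin.sum_univ_three] at hzs
    have h4 : (⟨z 0, hzL 0⟩ : Ls K U s) ≠ 0 ∨ (⟨z 1, hzL 1⟩ : Ls K U s) ≠ 0 ∨
        (⟨z 2, hzL 2⟩ : Ls K U s) ≠ 0 := by
      by_contra hcon
      push Not at hcon
      refine hz0 (funext fun i => ?_)
      fin_cases i
      · exact congrArg Subtype.val hcon.1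
      · exact congrArg Subtype.val hcon.2.1
      · exact congrArg Subtype.val hcon.2.2
    obtain ⟨r, t, hrt⟩ := tern (k := Ls K U s) (a0 := ⟨a 0, Fx_mem (ha 0).1 s⟩)
      (a1 := ⟨a 1, Fx_mem (ha 1).1 s⟩) (a2 := ⟨a 2, Fx_mem (ha 2).1 s⟩)
      (fun h => h2 (congrArg Subtype.val h)) (fun h => ha0 (congrArg Subtype.val h))
      (fun h => (ha 1).2 (congrArg Subtype.val h)) (Subtype.ext hzs) h4
    refine ⟨((r : K), (t : K)), fun u hu hs => ?_, congrArg Subtype.val hrt⟩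
    exact Prod.ext (r.2 u hu hs) (t.2 u hu hs))
  obtain ⟨r, t, hr, ht, hrt⟩ := hA.h1 x y hxF hyF hx0 hy0
    ⟨fun s => (f s).1, fun s => (f s).2, fun u hu s => congrArg Prod.fst (hf1 u hu s),
      fun u hu s => congrArg Prod.snd (hf1 u hu s), hf2⟩
  refine ⟨![r, t, 1], fun h => ?_, fun i => ?_, ?_⟩
  · have := congrFun h 2
    simp at this
  · fin_cases i
    · exact hr
    · exact ht
    · exact fun u _ => smul_one u
  · rw [Fin.sum_univ_three]
    have h3 : a 0 * y = a 0 * (r ^ 2 - x * t ^ 2) := by rw [hrt]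
    have h4 : a 0 * y = -(a 2) := by rw [hy]; field_simp
    have h5 : a 0 * x = -(a 1) := by rw [hx]; field_simp
    show a 0 * r ^ 2 + a 1 * t ^ 2 + a 2 * 1 ^ 2 = 0
    linear_combination -h3 + h4 + t ^ 2 * h5

theorem PP_succ (hCH : S_CH) {U : Subgroup G} (h2 : (2 : K) ≠ 0) (hA : Ax K S U) {m : ℕ}
    (hm : 0 < m) (h3 : PP K S U 3) (hn : PP K S U (m + 1)) : PP K S U (m + 2) := by
  intro a ha hz
  set c : Fin m → K := fun i => a i.succ.succ with hc
  have ha0 := (ha 0).2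
  have ha1 := (ha 1).2
  obtain ⟨d, hd1, hd2⟩ := hCH G S K U (fun s d => d ≠ 0 ∧ ∃ (p q : K) (z : Fin m → K),
      p ∈ Ls K U s ∧ q ∈ Ls K U s ∧ (∀ i, z i ∈ Ls K U s) ∧ a 0 * p ^ 2 + a 1 * q ^ 2 = d ∧
      ∑ i, c i * z i ^ 2 = -d) (by
    rintro u hu s d ⟨hd, p, q, z, hp, hq, hzL, e1, e2⟩
    refine ⟨(smul_ne_zero_iff_ne u).2 hd, u • p, u • q, fun i => u • z i, Ls_smul hp hu,
      Ls_smul hq hu, fun i => Ls_smul (hzL i) hu, ?_, ?_⟩
    · have e3 := congrArg (fun z => u • z) e1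
      simp only [smul_add, smul_mul', smul_pow', (ha 0).1 u hu, (ha 1).1 u hu] at e3
      exact e3
    · have e3 := congrArg (fun z => u • z) e2
      simp only [Finset.smul_sum, smul_neg, smul_mul', smul_pow'] at e3
      rw [← e3]
      refine Finset.sum_congr rfl fun i _ => ?_
      rw [(ha i.succ.succ).1 u hu]) (by
    intro s
    obtain ⟨z, hz0, hzL, hzs⟩ := hz s
    rw [Fin.sum_univ_succ, Fin.sum_univ_succ] at hzs
    have h4 : (⟨z 0, hzL 0⟩ : Ls K U s) ≠ 0 ∨ (⟨z 1, hzL 1⟩ : Ls K U s) ≠ 0 ∨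
        (fun i : Fin m => (⟨z i.succ.succ, hzL _⟩ : Ls K U s)) ≠ 0 := by
      by_contra hcon
      push Not at hcon
      refine hz0 (funext fun i => ?_)
      refine Fin.cases ?_ (fun i => ?_) i
      · exact congrArg Subtype.val hcon.1
      · refine Fin.cases ?_ (fun i => ?_) i
        · exact congrArg Subtype.val hcon.2.1
        · exact congrArg Subtype.val (congrFun hcon.2.2 i)
    obtain ⟨d, p, q, z', hd, e1, e2⟩ := split (k := Ls K U s) hm
      (fun h => h2 (congrArg Subtype.val h)) (a0 := ⟨a 0, Fx_mem (ha 0).1 s⟩)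
      (a1 := ⟨a 1, Fx_mem (ha 1).1 s⟩) (c := fun i => ⟨c i, Fx_mem (ha i.succ.succ).1 s⟩)
      (fun h => ha0 (congrArg Subtype.val h))
      (fun h => ha1 (congrArg Subtype.val h))
      (fun i h => (ha i.succ.succ).2 (congrArg Subtype.val h)) (by
        refine Subtype.ext ?_
        push_cast
        rw [add_assoc]
        exact hzs) h4
    refine ⟨(d : K), fun u hu hs => d.2 u hu hs, fun h => hd (Subtype.ext h), p, q,
      fun i => z' i, p.2, q.2, fun i => (z' i).2, congrArg Subtype.val e1, ?_⟩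
    have e3 := congrArg Subtype.val e2
    push_cast at e3
    exact e3)
  obtain ⟨d0, hd0F, hd0, ρ, hρE, hρ⟩ := hA.h2 d hd1 fun s => (hd2 s).1
  -- the ternary form
  obtain ⟨v, hv0, hvF, hv⟩ := h3 ![a 0, a 1, -d0] (by
    intro i
    fin_cases i
    · exact ha 0
    · exact ha 1
    · exact ⟨Fx_neg hd0F, neg_ne_zero.2 hd0⟩) (by
    intro s
    obtain ⟨_, p, q, z, hp, hq, hzL, e1, e2⟩ := hd2 s
    refine ⟨![p, q, ρ s], fun h => (hρ s).1 ?_, fun i => ?_, ?_⟩
    · have := congrFun h 2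
      simpa using this
    · fin_cases i
      · exact hp
      · exact hq
      · exact Ev_mem hρE s
    · rw [Fin.sum_univ_three]
      show a 0 * p ^ 2 + a 1 * q ^ 2 + -d0 * ρ s ^ 2 = 0
      rw [e1, (hρ s).2]
      ring)
  rw [Fin.sum_univ_three] at hv
  have hv' : a 0 * v 0 ^ 2 + a 1 * v 1 ^ 2 + -d0 * v 2 ^ 2 = 0 := hv
  -- the other form
  obtain ⟨w, hw0, hwF, hw⟩ := hn (Fin.cons d0 c) (by
    intro i
    refine Fin.cases ?_ (fun i => ?_) i
    · exact ⟨hd0F, hd0⟩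
    · exact ha i.succ.succ) (by
    intro s
    obtain ⟨_, p, q, z, hp, hq, hzL, e1, e2⟩ := hd2 s
    refine ⟨Fin.cons (ρ s) z, fun h => (hρ s).1 ?_, fun i => ?_, ?_⟩
    · exact congrFun h 0
    · refine Fin.cases ?_ (fun i => ?_) i
      · exact Ev_mem hρE s
      · exact hzL i
    · rw [Fin.sum_univ_succ]
      simp only [Fin.cons_zero, Fin.cons_succ]
      rw [e2, (hρ s).2]
      ring)
  rw [Fin.sum_univ_succ] at hw
  simp only [Fin.cons_zero, Fin.cons_succ] at hw
  have hsum : ∀ V : Fin (m + 2) → K, ∑ i, a i * V i ^ 2 =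
      a 0 * V 0 ^ 2 + (a 1 * V 1 ^ 2 + ∑ i : Fin m, c i * V i.succ.succ ^ 2) := by
    intro V
    rw [Fin.sum_univ_succ, Fin.sum_univ_succ]
    rfl
  by_cases hv2 : v 2 = 0
  · refine ⟨Fin.cons (v 0) (Fin.cons (v 1) 0), fun h => hv0 ?_, fun i => ?_, ?_⟩
    · funext i
      fin_cases i
      · exact congrFun h 0
      · exact congrFun h 1
      · exact hv2
    · refine Fin.cases ?_ (fun i => ?_) i
      · exact hvF 0
      · refine Fin.cases ?_ (fun i => ?_) i
        · exact hvF 1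
        · exact fun u _ => smul_zero u
    · rw [hsum]
      show a 0 * v 0 ^ 2 + (a 1 * v 1 ^ 2 + ∑ i : Fin m, c i * (0 : K) ^ 2) = 0
      rw [hv2] at hv'
      simp only [ne_eq, OfNat.ofNat_ne_zero, not_false_eq_true, zero_pow, mul_zero,
        Finset.sum_const_zero]
      linear_combination hv'
  · refine ⟨Fin.cons (w 0 * v 0 / v 2) (Fin.cons (w 0 * v 1 / v 2) fun i => w i.succ),
      fun h => hw0 ?_, fun i => ?_, ?_⟩
    · have e0 : w 0 * v 0 / v 2 = 0 := congrFun h 0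
      have e1 : w 0 * v 1 / v 2 = 0 := congrFun h 1
      have e2 : ∀ i : Fin m, w i.succ = 0 := fun i => congrFun h i.succ.succ
      have e3 : w 0 = 0 := by
        by_contra hcon
        have e4 : v 0 = 0 := by
          rcases div_eq_zero_iff.1 e0 with h5 | h5
          · exact (mul_eq_zero.1 h5).resolve_left hcon
          · exact absurd h5 hv2
        have e5 : v 1 = 0 := by
          rcases div_eq_zero_iff.1 e1 with h5 | h5
          · exact (mul_eq_zero.1 h5).resolve_left hcon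
          · exact absurd h5 hv2
        rw [e4, e5] at hv'
        have e6 : d0 * v 2 ^ 2 = 0 := by linear_combination -hv'
        exact mul_ne_zero hd0 (pow_ne_zero 2 hv2) e6
      funext i
      refine Fin.cases ?_ (fun i => ?_) i
      · exact e3
      · exact e2 i
    · refine Fin.cases ?_ (fun i => ?_) i
      · exact Fx_div (Fx_mul (hwF 0) (hvF 0)) (hvF 2)
      · refine Fin.cases ?_ (fun i => ?_) i
        · exact Fx_div (Fx_mul (hwF 0) (hvF 1)) (hvF 2)
        · exact hwF i.succ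
    · rw [hsum]
      show a 0 * (w 0 * v 0 / v 2) ^ 2 + (a 1 * (w 0 * v 1 / v 2) ^ 2 +
        ∑ i : Fin m, c i * w i.succ ^ 2) = 0
      have e1 : ∑ i : Fin m, c i * w i.succ ^ 2 = -(d0 * w 0 ^ 2) := by linear_combination hw
      rw [e1]
      field_simp
      linear_combination w 0 ^ 2 * hv'

theorem t_LG (hCH : S_CH) : S_LG := by
  intro G K S _ _ _ _ U h2 hA n hn a ha x hxE hx0 hx
  have key : ∀ n : ℕ, 3 ≤ n → PP K S U n := by
    intro n hn
    induction n, hn using Nat.le_induction with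
    | base => exact PP_three hCH h2 hA
    | succ n hn ih =>
      obtain ⟨m, rfl⟩ : ∃ m, n = m + 1 := ⟨n - 1, by omega⟩
      exact PP_succ hCH h2 hA (by omega) (PP_three hCH h2 hA) ih
  exact key n hn a ha fun s => ⟨x s, hx0 s, fun i => Ev_mem (hxE i) s, hx s⟩

end act

end Pool.Agent.V7H68.FP
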